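import Mathlib

set_option autoImplicit false

namespace Pool.Agent.Results.MP_095a77_co.EveryOrderEveryDegree

/-- Let `d < n` with `n * d` even (these are exactly the pairs for which a `d`-regular graph on
`n` vertices exists). There is a `d`-regular graph with `n` vertices, vertex-transitive, and
connected if `d ≥ 2`, such that for EVERY partition of the vertices into two nonempty parts `A`
and `Aᶜ` there are `v ∈ A` and `w ∈ Aᶜ` (adjacent if `d ≥ 2`) that together have at most `d`
(`d` even) or `d + 1` (`d` odd) neighbours in their own parts. Hence this graph has no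
`(a, b)`-internal partition for any reals `a + b > d + d % 2`. -/
theorem result (n d : ℕ) (hdn : d < n) (he : Even (n * d)) :
    ∃ (V : Type) (_ : Fintype V) (_ : DecidableEq V) (G : SimpleGraph V)
      (_ : DecidableRel G.Adj),
      Fintype.card V = n ∧ G.IsRegularOfDegree d ∧ (2 ≤ d → G.Connected) ∧
      (∀ u v : V, ∃ φ : G ≃g G, φ u = v) ∧
      (∀ A : Finset V, A.Nonempty → Aᶜ.Nonempty → ∃ v ∈ A, ∃ w ∈ Aᶜ, (2 ≤ d → G.Adj v w) ∧
        (G.neighborFinset v ∩ A).card + (G.neighborFinset w ∩ Aᶜ).card ≤ d + d % 2) ∧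
      (∀ a b : ℝ, ((d + d % 2 : ℕ) : ℝ) < a + b → ¬ ∃ A : Finset V, A.Nonempty ∧ Aᶜ.Nonempty ∧
        (∀ v ∈ A, a ≤ ((G.neighborFinset v ∩ A).card : ℝ)) ∧
        (∀ v ∈ Aᶜ, b ≤ ((G.neighborFinset v ∩ Aᶜ).card : ℝ))) := by
  classical
  have hn : NeZero n := ⟨by omega⟩
  set k := d / 2 with hk
  set m := n / 2 with hm
  have hodd : d % 2 = 1 → 2 * m = n := by
    intro h1
    rcases Nat.even_mul.1 he with h2 | h2
    · obtain ⟨c, hc⟩ := h2
      omega
    · rw [Nat.even_iff] at h2
      omega
  let T : Finset ℤ := (Finset.Icc (-(k : ℤ)) k).erase 0 ∪ (if d % 2 = 1 then {(m : ℤ)} else ∅)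
  have hT : ∀ x, x ∈ T ↔ (x ≠ 0 ∧ -(k : ℤ) ≤ x ∧ x ≤ k) ∨ (d % 2 = 1 ∧ x = m) := by
    intro x
    by_cases hd : d % 2 = 1
    · simp only [T, hd, if_true, Finset.mem_union, Finset.mem_erase, Finset.mem_Icc,
        Finset.mem_singleton, true_and]
    · simp [T, hd]
  have hkm : d % 2 = 1 → (k : ℤ) < m ∧ 2 * (m : ℤ) = n := by
    intro h
    have := hodd h
    omega
  have hTc : T.card = d := by
    rw [Finset.card_union_of_disjoint, Finset.card_erase_of_mem (by simp), Int.card_Icc]
    · by_cases hd : d % 2 = 1
      · simp only [hd, if_true, Finset.card_singleton]; omega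
      · simp only [hd, if_false, Finset.card_empty]; omega
    · by_cases hd : d % 2 = 1
      · simp only [hd, if_true, Finset.disjoint_singleton_right, Finset.mem_erase, Finset.mem_Icc]
        have := hkm hd
        omega
      · simp [hd]
  have hinj : ∀ x y : ℤ, x - y < n → y - x < n →
      (x : ZMod n) = (y : ZMod n) → x = y := by
    intro x y h1 h2 hxy
    rw [ZMod.intCast_eq_intCast_iff_dvd_sub] at hxy
    have h3 : (n : ℤ) ∣ |y - x| := (dvd_abs _ _).2 hxy
    have h4 : |y - x| < n := by
      rw [abs_lt]; constructor <;> linarith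
    have h5 := Int.eq_zero_of_dvd_of_nonneg_of_lt (abs_nonneg _) h4 h3
    have := abs_eq_zero.1 h5
    omega
  let S : Finset (ZMod n) := T.image (fun x : ℤ => (x : ZMod n))
  have hSc : S.card = d := by
    rw [Finset.card_image_of_injOn, hTc]
    intro x hx y hy hxy
    have a := (hT x).mp hx
    have b := (hT y).mp hy
    refine hinj x y ?_ ?_ hxy
    · rcases a with a | a <;> rcases b with b | b
      · omega
      · have := hkm b.1; omega
      · have := hkm a.1; omega
      · omega
    · rcases a with a | a <;> rcases b with b | b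
      · omega
      · have := hkm b.1; omega
      · have := hkm a.1; omega
      · omega
  have hS0 : (0 : ZMod n) ∉ S := by
    intro h0
    obtain ⟨x, hx, hx0⟩ := Finset.mem_image.mp h0
    have a := (hT x).mp hx
    have h1 : x = 0 := by
      refine hinj x 0 ?_ ?_ (by simpa using hx0)
      · rcases a with a | a
        · omega
        · have := hkm a.1; omega
      · rcases a with a | a
        · omega
        · have := hkm a.1; omega
    rcases a with a | a
    · exact a.1 h1
    · have := hkm a.1; omega
  have hSn : ∀ s ∈ S, -s ∈ S := by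
    intro s hs
    obtain ⟨x, hx, rfl⟩ := Finset.mem_image.mp hs
    rcases (hT x).mp hx with a | a
    · exact Finset.mem_image.mpr ⟨-x, (hT _).mpr (Or.inl (by omega)), by push_cast; rfl⟩
    · refine Finset.mem_image.mpr ⟨x, hx, ?_⟩
      rw [a.2, eq_neg_iff_add_eq_zero]
      have h1 := ZMod.natCast_self n
      rw [← hodd a.1] at h1
      push_cast at h1 ⊢
      have h2 : ((m : ZMod n) + m) = 2 * (m : ZMod n) := by ring
      rw [h2]
      have h3 : ((2 * m : ℕ) : ZMod n) = 0 := by
        rw [hodd a.1]; exact ZMod.natCast_self n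
      push_cast at h3
      exact h3
  let G : SimpleGraph (ZMod n) :=
    { Adj := fun u v => v - u ∈ S
      symm := ⟨fun u v huv => by simpa using hSn _ huv⟩
      loopless := ⟨fun u hu => hS0 (by simpa using hu)⟩ }
  have hN : ∀ u, G.neighborFinset u = S.image (fun s => u + s) := by
    intro u; ext v
    simp only [SimpleGraph.mem_neighborFinset, Finset.mem_image, G]
    constructor
    · intro hv; exact ⟨v - u, hv, by ring⟩
    · rintro ⟨s, hs, rfl⟩; simpa using hs
  have hreg : G.IsRegularOfDegree d := by
    intro u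
    rw [← SimpleGraph.card_neighborFinset_eq_degree, hN,
      Finset.card_image_of_injective _ (add_right_injective u), hSc]
  have hadj : 2 ≤ d → ∀ v : ZMod n, G.Adj v (v + 1) := by
    intro h2 v
    show v + 1 - v ∈ S
    refine Finset.mem_image.mpr ⟨1, (hT 1).2 (Or.inl (by omega)), by push_cast; ring⟩
  have main : ∀ A : Finset (ZMod n), A.Nonempty → Aᶜ.Nonempty →
      ∃ v ∈ A, ∃ w ∈ Aᶜ, (2 ≤ d → G.Adj v w) ∧
        (G.neighborFinset v ∩ A).card + (G.neighborFinset w ∩ Aᶜ).card ≤ d + d % 2 := by
    intro A hA hAc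
    obtain ⟨v, hv, hv1⟩ : ∃ v ∈ A, v + 1 ∉ A := by
      by_contra hc
      push Not at hc
      obtain ⟨a, ha⟩ := hA
      obtain ⟨b, hb⟩ := hAc
      have hall : ∀ j : ℕ, a + (j : ZMod n) ∈ A := by
        intro j
        induction j with
        | zero => simpa using ha
        | succ j ih => push_cast; rw [← add_assoc]; exact hc _ ih
      have := hall (b - a).val
      rw [ZMod.natCast_zmod_val] at this
      exact Finset.mem_compl.mp hb (by simpa using this)
    refine ⟨v, hv, v + 1, Finset.mem_compl.2 hv1, fun h2 => hadj h2 v, ?_⟩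
    have hd : Disjoint (G.neighborFinset v ∩ A) (G.neighborFinset (v + 1) ∩ Aᶜ) := by
      rw [Finset.disjoint_left]; intro x hx hy
      exact Finset.mem_compl.mp (Finset.mem_inter.mp hy).2 (Finset.mem_inter.mp hx).2
    rw [← Finset.card_union_of_disjoint hd]
    have hsub : (G.neighborFinset v ∩ A) ∪ (G.neighborFinset (v + 1) ∩ Aᶜ) ⊆
        ((((Finset.Icc (-(k : ℤ)) (k + 1)).erase 0).erase 1) ∪
          (if d % 2 = 1 then {(m : ℤ), (m : ℤ) + 1} else ∅)).image
          (fun x : ℤ => v + (x : ZMod n)) := by
      intro y hy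
      rcases Finset.mem_union.mp hy with hy | hy
      · obtain ⟨hy1, hy2⟩ := Finset.mem_inter.1 hy
        rw [hN] at hy1
        obtain ⟨s, hs, rfl⟩ := Finset.mem_image.mp hy1
        obtain ⟨x, hx, rfl⟩ := Finset.mem_image.mp hs
        have a := (hT x).mp hx
        have hx1 : x ≠ 1 := by
          rintro rfl
          apply hv1
          simpa using hy2
        refine Finset.mem_image.mpr ⟨x, ?_, rfl⟩
        by_cases hd1 : d % 2 = 1
        · simp only [hd1, if_true, Finset.mem_union, Finset.mem_erase, Finset.mem_Icc,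
            Finset.mem_insert, Finset.mem_singleton]
          omega
        · simp only [hd1, if_false, Finset.mem_union, Finset.mem_erase, Finset.mem_Icc]
          omega
      · obtain ⟨hy1, hy2⟩ := Finset.mem_inter.1 hy
        rw [hN] at hy1
        obtain ⟨s, hs, rfl⟩ := Finset.mem_image.mp hy1
        obtain ⟨x, hx, rfl⟩ := Finset.mem_image.mp hs
        have a := (hT x).mp hx
        have hx1 : x ≠ -1 := by
          rintro rfl
          apply Finset.mem_compl.1 hy2
          simpa using hv
        refine Finset.mem_image.mpr ⟨x + 1, ?_, by push_cast; ring⟩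
        by_cases hd1 : d % 2 = 1
        · simp only [hd1, if_true, Finset.mem_union, Finset.mem_erase, Finset.mem_Icc,
            Finset.mem_insert, Finset.mem_singleton]
          omega
        · simp only [hd1, if_false, Finset.mem_union, Finset.mem_erase, Finset.mem_Icc]
          omega
    refine (Finset.card_le_card hsub).trans (Finset.card_image_le.trans
      ((Finset.card_union_le _ _).trans ?_))
    rw [Finset.card_erase_of_mem (by simp only [Finset.mem_erase, Finset.mem_Icc]; omega),
      Finset.card_erase_of_mem (by simp only [Finset.mem_Icc]; omega), Int.card_Icc]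
    by_cases hd1 : d % 2 = 1
    · simp only [hd1, if_true]
      have := Finset.card_le_two (a := (m : ℤ)) (b := (m : ℤ) + 1)
      omega
    · simp only [hd1, if_false, Finset.card_empty]
      omega
  refine ⟨ZMod n, inferInstance, inferInstance, G, inferInstance, ZMod.card n, hreg, ?_, ?_, main,
    ?_⟩
  · intro h2
    have hreach : ∀ (a : ZMod n) (j : ℕ), G.Reachable a (a + (j : ZMod n)) := by
      intro a j
      induction j with
      | zero => simp
      | succ j ih =>
        push_cast
        rw [← add_assoc]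
        exact ih.trans (hadj h2 _).reachable
    refine ⟨fun a b => ?_⟩
    have := hreach a (b - a).val
    rw [ZMod.natCast_zmod_val] at this
    simpa using this
  · intro u v
    refine ⟨⟨Equiv.addRight (v - u), ?_⟩, ?_⟩
    · intro x y
      show (y + (v - u)) - (x + (v - u)) ∈ S ↔ y - x ∈ S
      rw [add_sub_add_right_eq_sub]
    · show u + (v - u) = v
      ring
  · rintro a b hab ⟨A, hA, hAc, h1, h2⟩
    obtain ⟨v, hv, w, hw, -, h3⟩ := main A hA hAc
    have e1 := h1 v hv
    have e2 := h2 w hw
    have e3 : (((G.neighborFinset v ∩ A).card + (G.neighborFinset w ∩ Aᶜ).card : ℕ) : ℝ) ≤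
        ((d + d % 2 : ℕ) : ℝ) := by exact_mod_cast h3
    push_cast at e3 hab
    linarith

end Pool.Agent.Results.MP_095a77_co.EveryOrderEveryDegree
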